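import Pool.Agent.MP_8be872_ag.H63.Tool

/-! Filtered complexes, direct sums and double complexes. -/

namespace Pool.Agent.MP_8be872_ag.H83

open Finset H63

variable {M : Type} [AddCommGroup M] [Module ℂ M]

theorem filt {D : Module.End ℂ M} {B : Submodule ℂ M} (N : ℕ) :
    ∀ (Y : ℕ → Bool → Submodule ℂ M) (B' : ℕ → Submodule ℂ M) (a : ℕ → ℤ),
      (∀ j < N, Ses D (Y j) (Y (j + 1)) B (B' j)) → (∀ p, Y N p ≤ B) →
      (∀ j < N, HasChi D (Y j) (B' j) (a j)) → HasChi D (Y 0) B (∑ j ∈ range N, a j) := by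
  induction N with
  | zero => exact fun Y B' a _ hN _ => (acy_of_le hN).hasChi
  | succ N ih =>
    intro Y B' a hs hN ha
    rw [sum_range_succ']
    exact (hs 0 (by omega)).chi_mid (ih (fun j => Y (j + 1)) (fun j => B' (j + 1))
      (fun j => a (j + 1)) (fun j hj => hs _ (by omega)) hN fun j hj => ha _ (by omega))
      (ha 0 (by omega))

/-- A complete orthogonal family of projections. -/
structure Orth (π : ℕ → Module.End ℂ M) (N : ℕ) : Prop where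
  orth : ∀ i j x, π i (π j x) = if i = j then π j x else 0
  sum : ∀ x, ∑ j ∈ range N, π j x = x

/-- The part of degree `j`. -/
def pc (π : ℕ → Module.End ℂ M) (j : ℕ) : Submodule ℂ M := LinearMap.eqLocus (π j) LinearMap.id

theorem mem_pc {π : ℕ → Module.End ℂ M} {j : ℕ} {x : M} : x ∈ pc π j ↔ π j x = x := Iff.rfl

/-- The parts of degree `< j` lie in `B`. -/
def low (π : ℕ → Module.End ℂ M) (B : Submodule ℂ M) (j : ℕ) : Submodule ℂ M :=
  ⨅ (i) (_ : i < j), B.comap (π i)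

theorem mem_low {π : ℕ → Module.End ℂ M} {B : Submodule ℂ M} {j : ℕ} {x : M} :
    x ∈ low π B j ↔ ∀ i < j, π i x ∈ B := by
  simp only [low, Submodule.mem_iInf, Submodule.mem_comap]

variable {π : ℕ → Module.End ℂ M} {N : ℕ} {Z : Bool → Submodule ℂ M} {B : Submodule ℂ M}

theorem Orth.self (h : Orth π N) (j : ℕ) (x : M) : π j (π j x) = π j x := by
  rw [h.orth, if_pos rfl]

theorem Orth.ne (h : Orth π N) {i j : ℕ} (hij : i ≠ j) (x : M) : π i (π j x) = 0 := by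
  rw [h.orth, if_neg hij]

theorem Orth.low (h : Orth π N) {i j : ℕ} (hij : j ≤ i) (x : M) : π i x ∈ low π B j :=
  mem_low.2 fun l hl => by
    rw [h.ne (by omega)]
    exact zero_mem _

theorem Orth.top (h : Orth π N) {x : M} (hx : x ∈ H83.low π B N) : x ∈ B := by
  rw [← h.sum x]
  exact sum_mem fun i hi => mem_low.1 hx i (mem_range.1 hi)

theorem low_succ {j : ℕ} {x : M} : x ∈ low π B (j + 1) ↔ x ∈ low π B j ∧ π j x ∈ B := by
  simp only [mem_low]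
  exact ⟨fun h => ⟨fun i hi => h i (by omega), h j (by omega)⟩, fun h i hi => by
    rcases Nat.lt_succ_iff_lt_or_eq.1 hi with h1 | rfl
    exacts [h.1 i h1, h.2]⟩

section DS

variable {D : Module.End ℂ M} (ho : Orth π N) (hc : IsCx D Z B)
  (hZ : ∀ j p, ∀ x ∈ Z p, π j x ∈ Z p) (hB : ∀ j, ∀ x ∈ B, π j x ∈ B)
  (hD : ∀ j x, π j (D x) = D (π j x))

include hc hD in
theorem cx_pc (j : ℕ) : IsCx D (fun p => Z p ⊓ pc π j) B :=
  ⟨fun p x hx => ⟨hc.mapZ p x hx.1, mem_pc.2 (by rw [hD, mem_pc.1 hx.2])⟩,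
    fun p x hx => hc.mapB p x hx.1, fun p x hx => hc.sq p x hx.1⟩

include ho hc hZ hB hD

theorem ds_sum (a : ℕ → ℤ) (ha : ∀ j < N, HasChi D (fun p => Z p ⊓ pc π j) B (a j)) :
    HasChi D Z B (∑ j ∈ range N, a j) := by
  have hs : ∀ j, Ses D (fun p => Z p ⊓ low π ⊥ j) (fun p => Z p ⊓ low π ⊥ (j + 1)) B
      (B.comap (π j)) := by
    have st : ∀ j p, ∀ x ∈ Z p ⊓ low π ⊥ j, D x ∈ Z (!p) ⊓ low π ⊥ j := fun j p x hx =>
      ⟨hc.mapZ p x hx.1, mem_low.2 fun i hi => by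
        rw [hD, (Submodule.mem_bot ℂ).1 (mem_low.1 hx.2 i hi), map_zero]
        exact zero_mem _⟩
    intro j
    refine ⟨⟨st j, fun p x hx => hc.mapB p x hx.1, fun p x hx => hc.sq p x hx.1⟩,
      fun p x hx => ⟨hx.1, (low_succ.1 hx.2).1⟩, st (j + 1), fun p x hx => ⟨fun h => ?_, ?_⟩⟩
    · refine ⟨x - π j x, ⟨sub_mem hx.1 (hZ j p x hx.1),
        low_succ.2 ⟨sub_mem hx.2 (ho.low le_rfl x), ?_⟩⟩, by rwa [sub_sub_cancel]⟩
      rw [map_sub, ho.self, sub_self]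
      exact zero_mem _
    · rintro ⟨y, hy, h⟩
      have h1 := hB j _ h
      rwa [map_sub, (Submodule.mem_bot ℂ).1 (low_succ.1 hy.2).2, sub_zero] at h1
  have h := filt (D := D) (B := B) N (fun j p => Z p ⊓ low π ⊥ j) (fun j => B.comap (π j)) a
    (fun j _ => hs j) (fun p x hx => by
      rw [(Submodule.mem_bot ℂ).1 (ho.top hx.2)]
      exact zero_mem _) fun j hj => ?_
  · have e : (fun p => Z p ⊓ low π ⊥ 0) = Z := funext fun p =>
      inf_eq_left.2 fun x _ => mem_low.2 fun i hi => absurd hi (by omega)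
    rwa [e] at h
  · refine ((cx_congr (hs j).cxQ (cx_pc hc hD j) (fun p x hx => ⟨hx.1, ?_⟩)
      (fun p x hx => ⟨π j x, ⟨hZ j p x hx.1, ho.self j x⟩, ?_⟩) (fun p x hx => ?_)
      fun p x _ => by rw [sub_self]; exact zero_mem _).1 _).1 (ha j hj)
    · rw [← mem_pc.1 hx.2]
      exact ho.low le_rfl x
    · rw [Submodule.mem_comap, map_sub, ho.self, sub_self]
      exact zero_mem _
    · rw [Submodule.mem_comap, mem_pc.1 hx.2]

theorem ds_fin {c : ℤ} (h : HasChi D Z B c) :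
    ∃ a : ℕ → ℤ, (∀ j, HasChi D (fun p => Z p ⊓ pc π j) B (a j)) ∧ ∑ j ∈ range N, a j = c := by
  have h1 : ∀ j, ∃ a, HasChi D (fun p => Z p ⊓ pc π j) B a := fun j =>
    fin_of_retract hc (cx_pc hc hD j).mapZ (fun p => inf_le_left) (π j)
      (fun p x hx => ⟨hZ j p x hx, ho.self j x⟩)
      (fun p x hx => by rw [mem_pc.1 hx.2, sub_self]; exact zero_mem _)
      (fun p x _ hx => hB j x hx) (fun p x _ => by rw [hD, sub_self]; exact zero_mem _) h
  choose a ha using h1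
  exact ⟨a, ha, (ds_sum ho hc hZ hB hD a fun j _ => ha j).unique h⟩

end DS

/-- A double complex modulo `B`; `k` lowers the degree by one. -/
structure Dbl (d k : Module.End ℂ M) (Z : Bool → Submodule ℂ M) (B B' : Submodule ℂ M)
    (π : ℕ → Module.End ℂ M) (N : ℕ) : Prop where
  ho : Orth π N
  dZ : ∀ p, ∀ x ∈ Z p, d x ∈ Z (!p)
  kZ : ∀ p, ∀ x ∈ Z p, k x ∈ Z (!p)
  dB : ∀ x ∈ B, d x ∈ B
  kB : ∀ x ∈ B, k x ∈ B
  dd : ∀ x, d (d x) = 0
  kk : ∀ x, k (k x) = 0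
  dk : ∀ x, d (k x) + k (d x) ∈ B
  pZ : ∀ j p, ∀ x ∈ Z p, π j x ∈ Z p
  pB : ∀ j, ∀ x ∈ B, π j x ∈ B
  pB' : ∀ j, ∀ x ∈ B', π j x ∈ B'
  pd : ∀ j x, π j (d x) = d (π j x)
  pk : ∀ j x, π j (k x) = k (π (j + 1) x)
  le : B ≤ B'
  kB' : ∀ x, k x ∈ B'
  quo : ∀ p, ∀ x ∈ Z p, x ∈ B' → ∃ y ∈ Z (!p), x - k y ∈ B

variable {d k : Module.End ℂ M} {B' : Submodule ℂ M} (h : Dbl d k Z B B' π N)

include h

theorem Dbl.sq (x : M) : (d + k) ((d + k) x) ∈ B := by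
  have := h.dk x
  simp only [LinearMap.add_apply, map_add, h.dd, h.kk, zero_add, add_zero]
  rwa [add_comm]

theorem Dbl.DB {x : M} (hx : x ∈ B) : (d + k) x ∈ B := add_mem (h.dB x hx) (h.kB x hx)

theorem Dbl.DZ {p : Bool} {x : M} (hx : x ∈ Z p) : (d + k) x ∈ Z (!p) :=
  add_mem (h.dZ p x hx) (h.kZ p x hx)

theorem Dbl.cx : IsCx (d + k) Z B :=
  ⟨fun _ _ hx => h.DZ hx, fun _ _ _ hx => h.DB hx, fun _ x _ => h.sq x⟩

theorem Dbl.cxE : IsCx d (fun p => Z p ⊓ B.comap k) B' := by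
  refine ⟨fun p x hx => ⟨h.dZ p x hx.1, ?_⟩, fun p x hx hb => ?_, fun p x _ => ?_⟩
  · have := sub_mem (h.dk x) (h.dB _ hx.2)
    rwa [add_sub_cancel_left] at this
  · obtain ⟨y, -, hy⟩ := h.quo p x hx.1 hb
    have := sub_mem (h.le (add_mem (h.dB _ hy) (h.dk y))) (h.kB' (d y))
    rwa [map_sub, show d x - d (k y) + (d (k y) + k (d y)) - k (d y) = d x by abel] at this
  · rw [h.dd]
    exact zero_mem _

theorem Dbl.k0 (x : M) : k (π 0 x) = 0 := by
  rw [← h.ho.sum (k (π 0 x))]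
  exact sum_eq_zero fun i _ => by rw [h.pk, h.ho.ne (by omega), map_zero]

theorem Dbl.lowB {j : ℕ} {x : M} (hx : x ∈ B) : x ∈ low π B j :=
  mem_low.2 fun i _ => h.pB i x hx

theorem Dbl.lowd {j : ℕ} {x : M} (hx : x ∈ low π B j) : d x ∈ low π B j :=
  mem_low.2 fun i hi => by
    rw [h.pd]
    exact h.dB _ (mem_low.1 hx i hi)

theorem Dbl.lowk {j : ℕ} {x : M} (hx : x ∈ low π B (j + 1)) : k x ∈ low π B j :=
  mem_low.2 fun i hi => by
    rw [h.pk]
    exact h.kB _ (mem_low.1 hx _ (by omega))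

theorem Dbl.kpi {j : ℕ} {x : M} (hx : k x ∈ low π B j) : k (π j x) ∈ B := by
  cases j with
  | zero =>
    rw [h.k0]
    exact zero_mem _
  | succ i =>
    rw [← h.pk]
    exact mem_low.1 hx i (by omega)

theorem Dbl.pE (j : ℕ) (p : Bool) (x : M) (hx : x ∈ Z p ⊓ B.comap k) : π j x ∈ Z p ⊓ B.comap k :=
  ⟨h.pZ j p x hx.1, h.kpi (h.lowB hx.2)⟩

theorem Dbl.chi {c : ℤ} (hc : HasChi d (fun p => Z p ⊓ B.comap k) B' c) :
    HasChi (d + k) Z B c := by
  obtain ⟨a, ha, rfl⟩ := ds_fin h.ho h.cxE h.pE h.pB' h.pd hc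
  set G : ℕ → Submodule ℂ M := fun j => low π B j ⊓ (low π B j).comap (d + k) with hG
  have gB : ∀ j, ∀ x ∈ B, x ∈ G j := fun j x hx => ⟨h.lowB hx, h.lowB (h.DB hx)⟩
  have st : ∀ j p, ∀ x ∈ Z p ⊓ G j, (d + k) x ∈ Z (!p) ⊓ G j := fun j p x hx =>
    ⟨h.DZ hx.1, hx.2.2, h.lowB (h.sq x)⟩
  have hs : ∀ j, Ses (d + k) (fun p => Z p ⊓ G j) (fun p => Z p ⊓ G (j + 1)) B (G (j + 1)) :=
    fun j => ⟨⟨st j, fun p x _ hx => h.DB hx, fun p x _ => h.sq x⟩,
      fun p x hx => ⟨hx.1, (low_succ.1 hx.2.1).1, (low_succ.1 hx.2.2).1⟩, st (j + 1),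
      fun p x hx => ⟨fun h1 => ⟨x, ⟨hx.1, h1⟩, by rw [sub_self]; exact zero_mem _⟩,
        fun ⟨y, hy, h1⟩ => TL.of_sub (gB _ _ h1) hy.2⟩⟩
  have key := filt (D := d + k) (B := B) N (fun j p => Z p ⊓ G j) (fun j => G (j + 1)) a
    (fun j _ => hs j) (fun p x hx => h.ho.top hx.2.1) fun j _ => ?_
  · have e : (fun p => Z p ⊓ G 0) = Z := funext fun p =>
      inf_eq_left.2 fun x _ => ⟨mem_low.2 fun i hi => absurd hi (by omega),
        mem_low.2 fun i hi => absurd hi (by omega)⟩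
    rwa [e] at key
  have hk : ∀ x ∈ G j, k x ∈ low π B j := fun x hx => by
    have := (low π B j).sub_mem hx.2 (h.lowd hx.1)
    rwa [LinearMap.add_apply, add_sub_cancel_left] at this
  have hcE := cx_pc h.cxE h.pd j
  have cm : ChMap (π j) false (d + k) (fun p => Z p ⊓ G j) (G (j + 1)) d
      (fun p => Z p ⊓ B.comap k ⊓ pc π j) B' := by
    refine ⟨(hs j).cxQ, hcE, fun p x hx => ⟨π j x, ?_, by rw [sub_self]; exact zero_mem _⟩,
      fun p x _ hx => h.le (low_succ.1 hx.1).2,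
      fun p => ⟨1, one_ne_zero, fun x hx y hy hxy => ?_⟩⟩
    · rw [Bool.xor_false]
      exact ⟨⟨h.pZ j p x hx.1, h.kpi (hk x hx.2)⟩, h.ho.self j x⟩
    · rw [Bool.xor_false] at hy
      have h1 := hcE.mapB p _ (sub_mem ⟨⟨h.pZ j p x hx.1, h.kpi (hk x hx.2)⟩, h.ho.self j x⟩ hy) hxy
      refine TL.of_eq (add_mem h1 (h.kB' (π (j + 1) x))) ?_
      rw [LinearMap.add_apply, map_add, h.pd, h.pk, map_sub, one_smul]
      abel
  refine ((cm.qis (fun p z hz hd => ?_) fun p x hx hd hy => ?_).1 _).2 (ha j)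
  · rw [Bool.xor_false] at hz ⊢
    obtain ⟨y, hy, h1⟩ := h.quo _ _ (h.dZ p z hz.1.1) hd
    rw [Bool.not_not] at hy
    have hz' : π j z = z := hz.2
    have h2 : (d + k) (z - π (j + 1) y) ∈ low π B (j + 1) := by
      have h3 : π j (d z - k y) - d (π (j + 1) y) + k z ∈ low π B (j + 1) :=
        add_mem (sub_mem (h.lowB (h.pB j _ h1)) (h.lowd (h.ho.low le_rfl y))) (h.lowB hz.1.2)
      refine TL.of_eq h3 ?_
      rw [map_sub (π j), h.pd, h.pk, hz', LinearMap.add_apply, map_sub, map_sub]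
      abel
    refine ⟨z - π (j + 1) y, ⟨sub_mem hz.1.1 (h.pZ _ p y hy), sub_mem ?_ (h.ho.low (by omega) y),
      (low_succ.1 h2).1⟩, ⟨h2, h.lowB (h.sq _)⟩, 0, zero_mem _, ?_⟩
    · rw [← hz']
      exact h.ho.low le_rfl z
    · rw [map_sub (π j), hz', h.ho.ne (by omega), map_zero, sub_zero, sub_zero, sub_self]
      exact zero_mem _
  · rw [Bool.xor_false] at hy
    obtain ⟨y, hy, h1⟩ := hy
    have hy' : π j y = y := hy.2
    obtain ⟨u, hu, h2⟩ := h.quo p _ (sub_mem (h.pZ j p x hx.1) (TL.mapZ' h.dZ p y hy.1.1)) h1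
    have h3 : y ∈ low π B j := by
      rw [← hy']
      exact h.ho.low le_rfl y
    have h4 : (d + k) (y + π (j + 1) u) ∈ low π B j := by
      rw [map_add]
      exact add_mem (add_mem (h.lowd h3) (h.lowB hy.1.2))
        (add_mem (h.lowd (h.ho.low (by omega) u)) (h.lowk (h.ho.low le_rfl u)))
    refine ⟨y + π (j + 1) u, ⟨add_mem hy.1.1 (h.pZ _ _ u hu),
      add_mem h3 (h.ho.low (by omega) u), h4⟩, low_succ.2 ⟨sub_mem hx.2.1 h4, ?_⟩, ?_⟩
    · refine TL.of_eq (sub_mem (h.pB j _ h2) (h.pB j _ hy.1.2)) ?_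
      simp only [LinearMap.add_apply, map_add, map_sub, h.pd, h.pk, h.ho.self,
        h.ho.ne (show j ≠ j + 1 by omega), map_zero]
      abel
    · change (d + k) (x - _) ∈ low π B (j + 1)
      rw [map_sub]
      exact (low π B (j + 1)).sub_mem hd.1 (h.lowB (h.sq _))

omit h in
theorem hasChi_not {D : Module.End ℂ M} {n : ℤ} (h : HasChi D Z B n) :
    HasChi D (fun p => Z (!p)) B (-n) :=
  ⟨fun p => h.1 (!p), by rw [← h.2, neg_sub]; rfl⟩

end Pool.Agent.MP_8be872_ag.H83
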