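import Pool.Agent.MP_8be872_ag.H29.CE

/-! Diagonal operators on exterior algebras and the exterior algebra of a direct sum. -/

namespace Pool.Agent.MP_8be872_ag.H83

open Finset H56 H29

section Dg

variable {O M : Type} [Fintype O] [DecidableEq O] [AddCommGroup M] [Module ℂ M]

/-- Multiplication by `f n` in degree `n`. -/
noncomputable def dg (f : ℕ → ℂ) : Module.End ℂ (Finset O → M) :=
  LinearMap.pi fun T => f T.card • LinearMap.proj T

omit [Fintype O] [DecidableEq O] in
theorem dg_apply (f : ℕ → ℂ) (x : Finset O → M) (T : Finset O) : dg f x T = f T.card • x T := rfl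

theorem dg_wedge (f : ℕ → ℂ) (o : O) (x : Finset O → M) :
    dg f (wedge o x) = wedge o (dg (fun n => f (n + 1)) x) := by
  funext T
  rw [dg_apply, wedge_apply, wedge_apply]
  split_ifs with h
  · rw [dg_apply, card_erase_add_one h, smul_comm]
  · rw [smul_zero]

theorem dg_contr (f : ℕ → ℂ) (o : O) (x : Finset O → M) :
    dg (fun n => f (n + 1)) (contr o x) = contr o (dg f x) := by
  funext T
  rw [dg_apply, contr_apply, contr_apply]
  split_ifs with h
  · rw [smul_zero]
  · rw [dg_apply, card_insert_of_notMem h, smul_comm]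

omit [Fintype O] [DecidableEq O] in
theorem dg_compLeft (f : ℕ → ℂ) (L : M →ₗ[ℂ] M) (x : Finset O → M) :
    dg f (L.compLeft (Finset O) x) = L.compLeft (Finset O) (dg f x) := by
  funext T
  exact (L.map_smul _ _).symm

theorem dg_dCE {V : Type} [Fintype V] [DecidableEq V] {R : V × V → Prop} [DecidablePred R]
    (ρ : V × V → M →ₗ[ℂ] M) (f : ℕ → ℂ) (x : Finset (Subtype R) → M) :
    dg f (dCE R ρ x) = dCE R ρ (dg (fun n => f (n + 1)) x) := by
  rw [dCE_apply, dCE_apply, map_sub]
  simp only [map_sum]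
  congr 1
  · exact sum_congr rfl fun r _ => by rw [dg_wedge, dg_compLeft]
  · refine sum_congr rfl fun r _ => sum_congr rfl fun r' _ => sum_congr rfl fun t _ => ?_
    split_ifs
    · rw [dg_wedge, dg_wedge, dg_contr (fun n => f (n + 1))]
    · exact map_zero _

/-- The parity sign. -/
noncomputable def sgm : Module.End ℂ (Finset O → M) := dg fun n => (-1) ^ n

omit [Fintype O] [DecidableEq O] in
theorem sgm_apply (x : Finset O → M) (T : Finset O) : sgm x T = (-1 : ℂ) ^ T.card • x T := rfl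

omit [Fintype O] [DecidableEq O] in
theorem sgm_succ (x : Finset O → M) : dg (fun n => (-1 : ℂ) ^ (n + 1)) x = -sgm x := by
  funext T
  rw [dg_apply, Pi.neg_apply, sgm_apply, pow_succ, mul_neg_one, neg_smul]

omit [Fintype O] [DecidableEq O] in
theorem sgm_sgm (x : Finset O → M) : sgm (sgm x) = x := by
  funext T
  rw [sgm_apply, sgm_apply, smul_smul, ← mul_pow]
  simp

omit [DecidableEq O] in
theorem sgn_eq_prod (o : O) (S : Finset O) : sgn o S = ∏ o' ∈ S, eps o' o := by
  unfold sgn eps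
  rw [prod_ite, prod_const, prod_const_one, mul_one]

end Dg

section Cur

variable {O₁ O₂ M : Type} [Fintype O₁] [DecidableEq O₁] [Fintype O₂] [DecidableEq O₂]
  [AddCommGroup M] [Module ℂ M]

/-- Signs for the lexicographic enumeration. -/
noncomputable def eps' : O₁ ⊕ O₂ → O₁ ⊕ O₂ → ℂ
  | .inl a', .inl a => eps a' a
  | .inr b', .inr b => eps b' b
  | .inl _, .inr _ => -1
  | .inr _, .inl _ => 1

omit [DecidableEq O₁] [DecidableEq O₂] in
theorem eps'_swap {o o' : O₁ ⊕ O₂} (h : o ≠ o') : eps' o o' = -eps' o' o := by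
  rcases o with a | b <;> rcases o' with a' | b' <;> simp only [eps', neg_neg]
  · exact eps_swap fun e => h (by rw [e])
  · exact eps_swap fun e => h (by rw [e])

omit [DecidableEq O₁] [DecidableEq O₂] in
theorem eps'_sq (o o' : O₁ ⊕ O₂) : eps' o o' * eps' o o' = 1 := by
  rcases o with a | b <;> rcases o' with a' | b' <;> simp [eps', eps_mul_self]

omit [DecidableEq O₁] [DecidableEq O₂] in
theorem eps'_self (o : O₁ ⊕ O₂) : eps' o o = 1 := by
  rcases o with a | b <;> simp [eps', eps_self]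

/-- The sign comparing the two enumerations. -/
noncomputable def us (S : Finset (O₁ ⊕ O₂)) : ℂ :=
  ∏ o ∈ S, ∏ o' ∈ S,
    if Fintype.equivFin (O₁ ⊕ O₂) o' < Fintype.equivFin (O₁ ⊕ O₂) o then -eps' o' o else 1

omit [DecidableEq O₁] [DecidableEq O₂] in
theorem us_ne (S : Finset (O₁ ⊕ O₂)) : us S ≠ 0 := by
  refine prod_ne_zero_iff.2 fun o _ => prod_ne_zero_iff.2 fun o' _ => ?_
  split_ifs
  · exact neg_ne_zero.2 (left_ne_zero_of_mul_eq_one (eps'_sq o' o))
  · exact one_ne_zero

theorem us_insert {o : O₁ ⊕ O₂} {S : Finset (O₁ ⊕ O₂)} (h : o ∉ S) :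
    us (insert o S) = us S * (sgn o S * ∏ o' ∈ S, eps' o' o) := by
  unfold us
  rw [prod_insert h, prod_insert h, if_neg (lt_irrefl _), one_mul, sgn_eq_prod, ← prod_mul_distrib]
  simp only [prod_insert h, prod_mul_distrib]
  rw [← mul_assoc, mul_comm]
  congr 1
  rw [← prod_mul_distrib, ← prod_mul_distrib]
  refine prod_congr rfl fun o' ho' => ?_
  have h1 : o ≠ o' := fun e => h (e ▸ ho')
  have h2 : Fintype.equivFin _ o ≠ Fintype.equivFin _ o' :=
    fun e => h1 ((Fintype.equivFin _).injective e)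
  unfold eps
  rcases lt_or_gt_of_ne h2 with h3 | h3
  · rw [if_neg (not_lt.2 h3.le), if_pos h3, if_neg (not_lt.2 h3.le), eps'_swap h1, neg_neg]
  · rw [if_pos h3, if_neg (not_lt.2 h3.le), if_pos h3]
    ring

theorem us_notMem {o : O₁ ⊕ O₂} {S : Finset (O₁ ⊕ O₂)} (h : o ∉ S) :
    us S * sgn o S = (∏ o' ∈ S, eps' o' o) * us (insert o S) := by
  have h1 : (∏ o' ∈ S, eps' o' o) * ∏ o' ∈ S, eps' o' o = 1 := by
    rw [← prod_mul_distrib]
    exact prod_eq_one fun o' _ => eps'_sq o' o
  rw [us_insert h]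
  linear_combination (-us S * sgn o S) * h1

theorem us_mem {o : O₁ ⊕ O₂} {S : Finset (O₁ ⊕ O₂)} (h : o ∈ S) :
    us S * sgn o S = (∏ o' ∈ S, eps' o' o) * us (S.erase o) := by
  have h1 := us_insert (notMem_erase o S)
  rw [insert_erase h, sgn_erase o o h, eps_self, one_mul] at h1
  rw [← mul_prod_erase S (fun o' => eps' o' o) h, eps'_self, one_mul, h1]
  linear_combination (us (S.erase o) * ∏ o' ∈ S.erase o, eps' o' o) * sgn_mul_self o S

omit [DecidableEq O₂] in
theorem prod_inl (a : O₁) (A : Finset O₁) (T : Finset O₂) :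
    ∏ o' ∈ A.disjSum T, eps' o' (.inl a) = sgn a A := by
  rw [prod_disjSum, sgn_eq_prod]
  simp [eps']

omit [DecidableEq O₁] in
theorem prod_inr (b : O₂) (A : Finset O₁) (T : Finset O₂) :
    ∏ o' ∈ A.disjSum T, eps' o' (.inr b) = (-1) ^ A.card * sgn b T := by
  rw [prod_disjSum, sgn_eq_prod]
  simp [eps']

/-- The exterior algebra of a direct sum. -/
noncomputable def cur : (Finset (O₁ ⊕ O₂) → M) →ₗ[ℂ] (Finset O₁ → Finset O₂ → M) :=
  LinearMap.pi fun A => LinearMap.pi fun T => us (A.disjSum T) • LinearMap.proj (A.disjSum T)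

omit [DecidableEq O₁] [DecidableEq O₂] in
theorem cur_apply (x : Finset (O₁ ⊕ O₂) → M) (A : Finset O₁) (T : Finset O₂) :
    cur x A T = us (A.disjSum T) • x (A.disjSum T) := rfl

omit [DecidableEq O₁] [DecidableEq O₂] in
theorem cur_surj (y : Finset O₁ → Finset O₂ → M) : ∃ x, cur x = y :=
  ⟨fun S => (us S)⁻¹ • y S.toLeft S.toRight, by
    funext A T
    rw [cur_apply, smul_smul, mul_inv_cancel₀ (us_ne _), one_smul, toLeft_disjSum,
      toRight_disjSum]⟩

omit [DecidableEq O₁] [DecidableEq O₂] in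
theorem cur_mem (C : Finset O₁ → Finset O₂ → Submodule ℂ M) (x : Finset (O₁ ⊕ O₂) → M) :
    (∀ A T, cur x A T ∈ C A T) ↔ ∀ S, x S ∈ C S.toLeft S.toRight := by
  simp only [cur_apply, Submodule.smul_mem_iff _ (us_ne _)]
  refine ⟨fun h S => ?_, fun h A T => ?_⟩
  · have := h S.toLeft S.toRight
    rwa [toLeft_disjSum_toRight] at this
  · have := h (A.disjSum T)
    rwa [toLeft_disjSum, toRight_disjSum] at this

omit [DecidableEq O₁] [DecidableEq O₂] in
theorem cur_compLeft (L : M →ₗ[ℂ] M) (x : Finset (O₁ ⊕ O₂) → M) :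
    cur (L.compLeft _ x) = (L.compLeft (Finset O₂)).compLeft (Finset O₁) (cur x) := by
  funext A T
  exact (L.map_smul _ _).symm

theorem cur_wedge_inl (a : O₁) (x : Finset (O₁ ⊕ O₂) → M) :
    cur (wedge (.inl a) x) = wedge a (cur x) := by
  funext A T
  rw [cur_apply, wedge_apply, wedge_apply]
  by_cases h : a ∈ A
  · have e : (A.erase a).disjSum T = (A.disjSum T).erase (.inl a) := by
      ext (o | o) <;> simp
    rw [if_pos h, if_pos (inl_mem_disjSum.2 h), Pi.smul_apply, cur_apply, smul_smul, smul_smul,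
      us_mem (inl_mem_disjSum.2 h), prod_inl, e]
  · rw [if_neg h, if_neg (mt inl_mem_disjSum.1 h), smul_zero, Pi.zero_apply]

theorem cur_contr_inl (a : O₁) (x : Finset (O₁ ⊕ O₂) → M) :
    cur (contr (.inl a) x) = contr a (cur x) := by
  funext A T
  rw [cur_apply, contr_apply, contr_apply]
  by_cases h : a ∈ A
  · rw [if_pos h, if_pos (inl_mem_disjSum.2 h), smul_zero, Pi.zero_apply]
  · have e : (insert a A).disjSum T = insert (.inl a) (A.disjSum T) := by
      ext (o | o) <;> simp
    rw [if_neg h, if_neg (mt inl_mem_disjSum.1 h), Pi.smul_apply, cur_apply, smul_smul, smul_smul,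
      us_notMem (mt inl_mem_disjSum.1 h), prod_inl, e]

theorem cur_wedge_inr (b : O₂) (x : Finset (O₁ ⊕ O₂) → M) :
    cur (wedge (.inr b) x) = sgm ((wedge b).compLeft _ (cur x)) := by
  funext A T
  change _ = (-1 : ℂ) ^ A.card • wedge b (cur x A) T
  rw [cur_apply, wedge_apply, wedge_apply]
  by_cases h : b ∈ T
  · have e : A.disjSum (T.erase b) = (A.disjSum T).erase (.inr b) := by
      ext (o | o) <;> simp
    rw [if_pos h, if_pos (inr_mem_disjSum.2 h), cur_apply, smul_smul, smul_smul, smul_smul,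
      us_mem (inr_mem_disjSum.2 h), prod_inr, e]
  · rw [if_neg h, if_neg (mt inr_mem_disjSum.1 h), smul_zero, smul_zero]

theorem cur_contr_inr (b : O₂) (x : Finset (O₁ ⊕ O₂) → M) :
    cur (contr (.inr b) x) = sgm ((contr b).compLeft _ (cur x)) := by
  funext A T
  change _ = (-1 : ℂ) ^ A.card • contr b (cur x A) T
  rw [cur_apply, contr_apply, contr_apply]
  by_cases h : b ∈ T
  · rw [if_pos h, if_pos (inr_mem_disjSum.2 h), smul_zero, smul_zero]
  · have e : A.disjSum (insert b T) = insert (.inr b) (A.disjSum T) := by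
      ext (o | o) <;> simp
    rw [if_neg h, if_neg (mt inr_mem_disjSum.1 h), cur_apply, smul_smul, smul_smul, smul_smul,
      us_notMem (mt inr_mem_disjSum.1 h), prod_inr, e]

end Cur

end Pool.Agent.MP_8be872_ag.H83
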