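import Pool.Agent.MP_8be872_ag.H83.FxA
import Pool.Agent.MP_8be872_ag.H83.FxB
import Pool.Agent.MP_8be872_ag.H42.Sub

/-! The Chevalley-Eilenberg complex of a Koszul complex as a double complex. -/

namespace Pool.Agent.MP_8be872_ag.H83

open Finset H38 H56 H29 H63

set_option linter.unusedSectionVars false

section Par

variable {O O' M : Type} [Fintype O] [DecidableEq O] [Fintype O'] [DecidableEq O']
  [AddCommGroup M] [Module ℂ M]

/-- A diagonal operator in the inner exterior degree. -/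
noncomputable def prj (f : ℕ → ℂ) : Module.End ℂ (Finset O → Finset O' → M) :=
  (dg f).compLeft (Finset O)

theorem prj_apply (f : ℕ → ℂ) (x : Finset O → Finset O' → M) (S : Finset O) (T : Finset O') :
    prj f x S T = f T.card • x S T := rfl

/-- Indicator functions. -/
noncomputable def ind (g : ℕ → ℕ) (j n : ℕ) : ℂ := if g n = j then 1 else 0

theorem orth_prj (g : ℕ → ℕ) (N : ℕ) (h : ∀ T : Finset O', g T.card < N) :
    Orth (fun j => (prj (ind g j) : Module.End ℂ (Finset O → Finset O' → M))) N := by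
  refine ⟨fun i j x => ?_, fun x => ?_⟩
  · funext S T
    rw [ite_apply, ite_apply]
    simp only [prj_apply, ind, Pi.zero_apply]
    by_cases h1 : g T.card = j
    · subst h1
      simp [eq_comm]
    · simp [h1]
  · funext S T
    simp only [Finset.sum_apply, prj_apply, ind, ite_smul, one_smul, zero_smul, sum_ite_eq,
      mem_range, h T, if_true]

/-- Total parity. -/
def par2 (O O' M : Type) [AddCommGroup M] [Module ℂ M] (q : Bool) :
    Submodule ℂ (Finset O → Finset O' → M) :=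
  Submodule.pi Set.univ fun S => par O' M (xor q (decide (Odd S.card)))

theorem mem_par2 {q : Bool} {x : Finset O → Finset O' → M} :
    x ∈ par2 O O' M q ↔ ∀ S, x S ∈ par O' M (xor q (decide (Odd S.card))) :=
  ⟨fun h S => h S trivial, fun h S _ => h S⟩

theorem dg_par (f : ℕ → ℂ) {p : Bool} {y : Finset O → M} (h : y ∈ par O M p) :
    dg f y ∈ par O M p := mem_par.2 fun S hS => by rw [dg_apply, mem_par.1 h S hS, smul_zero]

theorem dg_extOf (f : ℕ → ℂ) {Z : Submodule ℂ M} {y : Finset O → M} (h : y ∈ extOf O Z) :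
    dg f y ∈ extOf O Z := mem_extOf.2 fun S => Z.smul_mem _ (mem_extOf.1 h S)

theorem dg_extW (f : ℕ → ℂ) {c : O → G} {W : G → Submodule ℂ M} {γ : G} {y : Finset O → M}
    (h : y ∈ extW c W γ) : dg f y ∈ extW c W γ :=
  mem_extW.2 fun S => (W _).smul_mem _ (mem_extW.1 h S)

/-- The projection to the part of parity `p`. -/
noncomputable def pe (p : Bool) : ℕ → ℂ := ind (· % 2) p.toNat

theorem pe_eq (p : Bool) (n : ℕ) : pe p n = if decide (Odd n) = p then 1 else 0 := by
  unfold pe ind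
  rcases Nat.mod_two_eq_zero_or_one n with h | h <;> cases p <;> simp [Nat.odd_iff, h]

theorem pe_succ (p : Bool) : (fun n => pe (!p) (n + 1)) = pe p := by
  funext n
  rw [pe_eq, pe_eq, decide_odd_succ]
  cases p <;> simp

theorem pe_mem (p : Bool) (y : Finset O → M) : dg (pe p) y ∈ par O M p :=
  mem_par.2 fun S hS => by rw [dg_apply, pe_eq, if_neg hS, zero_smul]

theorem pe_self {p : Bool} {y : Finset O → M} (h : y ∈ par O M p) : dg (pe p) y = y := by
  funext S
  rw [dg_apply, pe_eq]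
  split_ifs with h1
  · exact one_smul _ _
  · rw [mem_par.1 h S h1, smul_zero]

theorem pe_ne {p p' : Bool} (hp : p' ≠ p) {y : Finset O → M} (h : y ∈ par O M p') :
    dg (pe p) y = 0 := by
  funext S
  rw [dg_apply, pe_eq]
  split_ifs with h1
  · rw [mem_par.1 h S (by rw [h1]; exact hp.symm), smul_zero, Pi.zero_apply]
  · exact zero_smul _ _

theorem par2_of {p p' : Bool} {x : Finset O → Finset O' → M} (h : x ∈ extOf O (par O' M p))
    (h' : x ∈ par O _ p') : x ∈ par2 O O' M (xor p' p) := by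
  refine mem_par2.2 fun S => ?_
  by_cases h1 : decide (Odd S.card) = p'
  · rw [h1, Bool.xor_comm p' p, TL.xor_xor]
    exact mem_extOf.1 h S
  · rw [mem_par.1 h' S h1]
    exact zero_mem _

theorem par_of_par2 {p p' : Bool} {x : Finset O → Finset O' → M} (h : x ∈ extOf O (par O' M p))
    (h' : x ∈ par2 O O' M (xor p' p)) : x ∈ par O _ p' := by
  refine mem_par.2 fun S hS => ?_
  rw [← pe_self (mem_extOf.1 h S)]
  refine pe_ne ?_ (mem_par2.1 h' S)
  revert hS
  cases p <;> cases p' <;> cases decide (Odd S.card) <;> simp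

theorem prj_par2 (f : ℕ → ℂ) {q : Bool} {x : Finset O → Finset O' → M} (h : x ∈ par2 O O' M q) :
    prj f x ∈ par2 O O' M q := mem_par2.2 fun S => dg_par f (mem_par2.1 h S)

theorem prj_pe (p : Bool) (x : Finset O → Finset O' → M) :
    prj (pe p) x ∈ extOf O (par O' M p) := mem_extOf.2 fun S => pe_mem p (x S)

theorem pe_add (x : Finset O → Finset O' → M) : prj (pe false) x + prj (pe true) x = x := by
  funext S T
  simp only [Pi.add_apply, prj_apply, pe_eq]
  cases decide (Odd T.card) <;> simp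

end Par

variable {V P : Type} [Fintype V] [DecidableEq V] [CommRing P] [Algebra ℂ P]
  {R L : V × V → Prop} [DecidablePred R] [DecidablePred L]

theorem dg_dKos (μ : V × V → P) (f : ℕ → ℂ) (y : Finset (Subtype L) → P) :
    dg (fun n => f (n + 1)) (dKos L μ y) = dKos L μ (dg f y) := by
  unfold dKos
  simp only [LinearMap.sum_apply, map_sum, LinearMap.comp_apply, dg_compLeft, dg_contr]

theorem dg_actKos (δ : V × V → Derivation ℂ P P) (r : V × V) (f : ℕ → ℂ)
    (y : Finset (Subtype L) → P) : dg f (actKos L δ r y) = actKos L δ r (dg f y) := by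
  unfold actKos
  simp only [LinearMap.add_apply, LinearMap.sum_apply, map_add, map_sum, LinearMap.smul_apply,
    map_smul, LinearMap.comp_apply, dg_compLeft, dg_wedge, dg_contr]

variable (R L) in
/-- The Koszul differential with the sign of the cochain degree. -/
noncomputable def kd (μ : V × V → P) :
    Module.End ℂ (Finset (Subtype R) → Finset (Subtype L) → P) :=
  sgm * (dKos L μ).compLeft (Finset (Subtype R))

theorem kd_apply (μ : V × V → P) (y : Finset (Subtype R) → Finset (Subtype L) → P)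
    (S : Finset (Subtype R)) : kd R L μ y S = (-1 : ℂ) ^ S.card • dKos L μ (y S) := rfl

theorem kd_mem {μ : V × V → P} {C : Submodule ℂ (Finset (Subtype L) → P)}
    {y : Finset (Subtype R) → Finset (Subtype L) → P} :
    kd R L μ y ∈ extOf _ C ↔ ∀ S, dKos L μ (y S) ∈ C := by
  rw [mem_extOf]
  refine forall_congr' fun S => ?_
  rw [kd_apply]
  exact C.smul_mem_iff (pow_ne_zero _ (neg_ne_zero.2 one_ne_zero))

variable (R) in
/-- Cochains of the total complex. -/
noncomputable def Zt (x : V → G) (c : Subtype L → G) (W : G → Submodule ℂ P) (γ : G) (q : Bool) :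
    Submodule ℂ (Finset (Subtype R) → Finset (Subtype L) → P) :=
  extW (fun r : Subtype R => x r.1.2 - x r.1.1) (extW c W) γ ⊓ par2 _ _ P q

variable (R L) in
/-- Relations. -/
noncomputable def Bt (I : Ideal P) : Submodule ℂ (Finset (Subtype R) → Finset (Subtype L) → P) :=
  extOf _ (extOf _ (I.restrictScalars ℂ))

variable (R L) in
/-- Relations and Koszul boundaries. -/
noncomputable def Bt' (μ : V × V → P) (I : Ideal P) :
    Submodule ℂ (Finset (Subtype R) → Finset (Subtype L) → P) :=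
  extOf _ (Submodule.map (dKos L μ) ⊤ ⊔ extOf _ (I.restrictScalars ℂ))

theorem prj_dCE (δ : V × V → Derivation ℂ P P) (f : ℕ → ℂ)
    (y : Finset (Subtype R) → Finset (Subtype L) → P) :
    prj f (dCE R (actKos L δ) y) = dCE R (actKos L δ) (prj f y) := by
  have h := compLeft_dCE_sub (R := R) (ρ := actKos L δ) (ρ' := actKos L δ) (B := ⊥) (Z' := ⊤)
    (dg f) (fun r _ m _ => by rw [dg_actKos, sub_self]; exact zero_mem _) (φ := y)
    (mem_extOf.2 fun _ => trivial)
  exact sub_eq_zero.1 (funext fun S => (Submodule.mem_bot ℂ).1 (mem_extOf.1 h S))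

theorem prj_kd (μ : V × V → P) (f : ℕ → ℂ) (y : Finset (Subtype R) → Finset (Subtype L) → P) :
    prj (fun n => f (n + 1)) (kd R L μ y) = kd R L μ (prj f y) := by
  funext S
  change dg (fun n => f (n + 1)) (kd R L μ y S) = _
  rw [kd_apply, kd_apply, map_smul, dg_dKos]
  rfl

theorem prj_Bt' (μ : V × V → P) (I : Ideal P) (f : ℕ → ℂ) :
    ∀ y ∈ Bt' R L μ I, prj f y ∈ Bt' R L μ I := fun y hy => mem_extOf.2 fun S => by
  obtain ⟨u, -, hu⟩ := TL.mem_bd.1 (mem_extOf.1 hy S)
  refine TL.mem_bd.2 ⟨dg (fun n => f (n - 1)) u, trivial, ?_⟩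
  have := dg_extOf f hu
  rw [map_sub] at this
  rw [← dg_dKos]
  exact this

variable {x : V → G} {c : Subtype L → G} {W : G → Submodule ℂ P} {δ : V × V → Derivation ℂ P P}
  {μ : V × V → P} {I : Ideal P}

theorem prj_Zt (f : ℕ → ℂ) {γ : G} {q : Bool} {y : Finset (Subtype R) → Finset (Subtype L) → P}
    (h : y ∈ Zt R x c W γ q) : prj f y ∈ Zt R x c W γ q :=
  ⟨mem_extW.2 fun S => dg_extW f (mem_extW.1 h.1 S), prj_par2 f h.2⟩

variable (hR : IsRoots R) (hrep : IsRep R x (extW c W) (actKos L δ)) (htop : ⨆ γ, W γ = ⊤)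
  (hind : iSupIndep W) (hmul : ∀ α β, ∀ a ∈ W α, ∀ b ∈ W β, a * b ∈ W (α + β))
  (hμ : ∀ β : Subtype L, μ β ∈ W (c β))
  (hI : IsSub R W (fun r => (δ r).toLinearMap) (I.restrictScalars ℂ))
  (hδ : ∀ r, R r → ∀ β : Subtype L, δ r (μ β) - ∑ β' : Subtype L, H42.co r β β' • μ β' ∈ I)

include hR hrep htop hmul hμ hI hδ

theorem dbl (γ : G) : Dbl (dCE R (actKos L δ)) (kd R L μ) (Zt R x c W γ) (Bt R L I) (Bt' R L μ I)
    (fun j => prj (ind id j)) (Fintype.card (Subtype L) + 1) where
  ho := orth_prj id _ fun T => Nat.lt_succ_of_le (card_le_univ T)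
  dZ q y hy := by
    refine ⟨dCE_mem_extW hrep.wt hy.1, ?_⟩
    have key : ∀ p, dCE R (actKos L δ) (prj (pe p) y) ∈ par2 _ _ P (!q) := by
      intro p
      have h1 := par_of_par2 (p' := xor q p) (prj_pe p y)
        (by rw [TL.xor_xor]; exact prj_par2 _ hy.2)
      have h2 := par2_of (dCE_mem_extOf (ρ := actKos L δ) (fun r _ m hm => H42.act_par r hm)
        (prj_pe p y)) (dCE_mem_par (actKos L δ) h1)
      rwa [TL.xor_not, TL.xor_xor] at h2
    rw [← pe_add y, map_add]
    exact add_mem (key false) (key true)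
  kZ q y hy := by
    refine ⟨mem_extW.2 fun S => Submodule.smul_mem _ _
      (H42.d_wt μ hmul hμ _ _ (mem_extW.1 hy.1 S)), mem_par2.2 fun S => Submodule.smul_mem _ _ ?_⟩
    rw [TL.xor_not]
    exact H42.d_par μ (mem_par2.1 hy.2 S)
  dB y hy := dCE_mem_extOf (fun r hr m hm => H42.act_ext (hI.stab r hr) hm) hy
  kB y hy := kd_mem.2 fun S => H42.d_ext μ (mem_extOf.1 hy S)
  dd := dCE_dCE hR hrep
  kk y := by
    funext S
    rw [kd_apply, kd_apply, map_smul, H42.d_d, smul_zero, smul_zero, Pi.zero_apply]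
  dk y := by
    have h := compLeft_dCE_sub (R := R) (ρ := actKos L δ) (ρ' := actKos L δ)
      (B := extOf _ (I.restrictScalars ℂ)) (Z' := ⊤) (dKos L μ) (fun r hr m _ => by
        rw [← neg_sub, H42.act_d]
        exact neg_mem (sum_mem fun β _ => H42.smul_ext (hδ r hr β) _)) (φ := y)
      (mem_extOf.2 fun _ => trivial)
    have h1 := dg_extOf (fun n => (-1 : ℂ) ^ n) h
    rw [map_sub, dg_dCE, sgm_succ, map_neg, sub_neg_eq_add, add_comm] at h1
    exact h1
  pZ j p y hy := prj_Zt _ hy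
  pB j y hy := mem_extOf.2 fun S => dg_extOf _ (mem_extOf.1 hy S)
  pB' j := prj_Bt' μ I _
  pd j := prj_dCE δ _
  pk j y := by
    rw [← prj_kd]
    congr 2
    funext n
    simp [ind]
  le := extOf_mono le_sup_right
  kB' y := kd_mem.2 fun S => Submodule.mem_sup_left ⟨_, trivial, rfl⟩
  quo q y hy hb := by
    have key : ∀ S : Finset (Subtype R), ∃ u ∈ extW c W (γ - ∑ r ∈ S, (x r.1.2 - x r.1.1)) ⊓
        par _ P (xor (!q) (decide (Odd S.card))),
        y S - dKos L μ u ∈ extOf _ (I.restrictScalars ℂ) := by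
      intro S
      obtain ⟨u, hu, h1⟩ := homog_lift (W := extW c W) (W' := extW c W) hrep.indep
        (Z := Submodule.map (dKos L μ) ⊤ ⊔ extOf _ (I.restrictScalars ℂ)) (Z' := ⊤) (dKos L μ) 0
        (fun γ m hm => by rw [add_zero]; exact H42.d_wt μ hmul hμ _ _ hm)
        (H42.hom_extOf (fun S => ∑ β ∈ S, c β) hI.homog)
        (H42.hom_top (H42.free_top (fun S => ∑ β ∈ S, c β) htop)) le_rfl _ (mem_extOf.1 hb S)
        (by rw [add_zero]; exact mem_extW.1 hy.1 S)
      refine ⟨_, ⟨dg_extW _ hu.2, pe_mem _ u⟩, ?_⟩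
      have h2 := dg_extOf (pe (xor q (decide (Odd S.card)))) h1
      rwa [map_sub, pe_self (mem_par2.1 hy.2 S), ← pe_succ, dg_dKos, ← TL.xor_not] at h2
    choose u hu h1 using key
    refine ⟨sgm u, ⟨dg_extW _ (mem_extW.2 fun S => (hu S).1),
      mem_par2.2 fun S => Submodule.smul_mem _ _ (hu S).2⟩, mem_extOf.2 fun S => ?_⟩
    rw [Pi.sub_apply, kd_apply, sgm_apply, map_smul, ← sgm_apply (fun S => dKos L μ (u S)),
      ← sgm_apply (sgm fun S => dKos L μ (u S)), sgm_sgm]
    exact h1 S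

include hind

theorem piece (γ : G) (p : Bool) (n : ℤ)
    (h : HasChi (dCE R (actKos L δ)) (cochains R x (extW c W) (kosZ L μ I p) γ)
      (extOf _ (kosB L μ I p)) n) :
    HasChi (dCE R (actKos L δ)) (fun q => Zt R x c W γ (xor q p) ⊓ (Bt R L I).comap (kd R L μ) ⊓
      pc (fun j => prj (ind (· % 2) j)) p.toNat) (Bt' R L μ I) n := by
  have hd := dbl hR hrep htop hmul hμ hI hδ γ
  obtain ⟨hZ, hB⟩ := H42.sub_kos htop hind hmul hμ hI hδ p
  have hc := cx_pc (π := fun j => prj (ind (· % 2) j)) hd.cxE (fun j => prj_dCE δ _) p.toNat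
  have hp : ∀ y ∈ pc (fun j => (prj (ind (· % 2) j) :
      Module.End ℂ (Finset (Subtype R) → Finset (Subtype L) → P))) p.toNat,
      y ∈ extOf _ (par _ P p) := fun y hy => by
    rw [← mem_pc.1 hy]
    exact prj_pe p y
  refine ((cx_congr ⟨fun q y hy => dCE_mem_cochains hrep hZ.stab hy,
    fun q y _ hy => dCE_mem_extOf hB.stab hy,
    fun q y _ => by rw [dCE_dCE hR hrep]; exact zero_mem _⟩
    ⟨fun q y hy => by rw [TL.xor_not]; exact hc.mapZ _ y hy, fun q => hc.mapB _, fun q => hc.sq _⟩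
    (fun q y hy => ⟨⟨mem_extOf.2 fun S => H42.mem_kosZ.2 ⟨⟨_, mem_extOf.1 (hp y hy.2) S, ?_⟩,
      kd_mem.1 hy.1.2 S⟩, hy.1.1.1⟩, par_of_par2 (hp y hy.2) hy.1.1.2⟩)
    (fun q y hy => ?_) (fun q y hy => ?_)
    fun q y _ => by rw [sub_self]; exact zero_mem _).1 n).2 h
  · rw [sub_self]
    exact zero_mem _
  · have h1 : y - prj (pe p) y ∈ Bt R L I := mem_extOf.2 fun S => by
      obtain ⟨u, hu, h2⟩ := (H42.mem_kosZ.1 (mem_extOf.1 hy.1.1 S)).1
      have h3 := sub_mem h2 (dg_extOf (pe p) h2)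
      rwa [map_sub, pe_self hu, sub_sub_sub_cancel_right] at h3
    have h2 : kd R L μ y ∈ Bt R L I :=
      kd_mem.2 fun S => (H42.mem_kosZ.1 (mem_extOf.1 hy.1.1 S)).2
    refine ⟨prj (pe p) y, ⟨⟨⟨mem_extW.2 fun S => dg_extW _ (mem_extW.1 hy.1.2 S),
      par2_of (prj_pe p y) (compLeft_mem_par _ hy.2)⟩, ?_⟩,
      funext fun S => pe_self (pe_mem p (y S))⟩, extOf_mono le_sup_right h1⟩
    have h3 := sub_mem h2 (hd.kB _ h1)
    rwa [map_sub, sub_sub_cancel] at h3
  · refine ⟨fun h1 => mem_extOf.2 fun S => ?_,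
      fun h1 => extOf_mono (sup_le_sup_right (Submodule.map_mono le_top) _) h1⟩
    obtain ⟨u, -, hu⟩ := TL.mem_bd.1 (mem_extOf.1 h1 S)
    refine H42.mem_kosB.2 ⟨_, pe_mem (!p) u, ?_⟩
    have h2 := dg_extOf (pe p) hu
    rwa [map_sub, pe_self (mem_extOf.1 (hp y hy.2) S), ← pe_succ, dg_dKos] at h2

theorem total (γ : G)
    (h : ∀ p p', FiniteDimensional ℂ
      (Hu R x (extW c W) (actKos L δ) (kosZ L μ I p) (kosB L μ I p) γ p')) :
    HasChi (dCE R (actKos L δ) + kd R L μ) (Zt R x c W γ) (Bt R L I)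
      (∑ p : Bool, ∑ p' : Bool, (if p = p' then 1 else -1) * (Module.finrank ℂ
        (Hu R x (extW c W) (actKos L δ) (kosZ L μ I p) (kosB L μ I p) γ p') : ℤ)) := by
  have hd := dbl hR hrep htop hmul hμ hI hδ γ
  have key := fun p => piece hR hrep htop hind hmul hμ hI hδ γ p
    ((Module.finrank ℂ (Hu R x (extW c W) (actKos L δ) (kosZ L μ I p) (kosB L μ I p) γ false) : ℤ) -
      Module.finrank ℂ (Hu R x (extW c W) (actKos L δ) (kosZ L μ I p) (kosB L μ I p) γ true))
    ⟨fun p' => @Module.rank_lt_aleph0 _ _ _ _ _ _ (h p p'), rfl⟩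
  have h0 := key false
  have h1 := hasChi_not (key true)
  simp only [Bool.xor_false, Bool.xor_true, Bool.not_not] at h0 h1
  refine hd.chi ?_
  have h2 := ds_sum (orth_prj (· % 2) 2 fun T => Nat.mod_lt _ two_pos) hd.cxE
    (fun j p y hy => ⟨prj_Zt _ hy.1, ?_⟩) (fun j => prj_Bt' μ I _) (fun j => prj_dCE δ _)
    (fun j => if j = 0 then _ else _) fun j hj => by
      interval_cases j
      exacts [h0, h1]
  · refine Eq.mpr (congrArg _ ?_) h2
    simp only [Fintype.sum_bool, sum_range_succ, range_zero, sum_empty, if_true, one_ne_zero,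
      if_false, Bool.true_eq_false, Bool.false_eq_true]
    ring
  · change kd R L μ (prj _ y) ∈ Bt R L I
    rw [← prj_kd]
    exact mem_extOf.2 fun S => dg_extOf (fun n => ind (· % 2) j (n + 1)) (mem_extOf.1 hy.2 S)

end Pool.Agent.MP_8be872_ag.H83
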