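import Pool.Agent.MP_8be872_ag.H83.FxC
import Pool.Agent.MP_8be872_ag.H63.SpecD
import Pool.Agent.MP_8be872_ag.H63.ApiB
import Pool.Agent.MP_8be872_ag.H42.Kos
import Pool.Agent.MP_8be872_ag.H56.Rep

/-! The dg algebra of the fixed locus is the total complex. -/

namespace Pool.Agent.MP_8be872_ag.H83

open Finset H38 H56 H29 H63 MvPolynomial

section Ext

variable {V W A : Type} [Fintype V] [Fintype W] [DecidableEq V] [DecidableEq W] [Ring A]
  {R : V × V → Prop} [DecidablePred R]

/-- A matrix with the entries `e r` in the positions `r`. -/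
def ext0 (W : Type) [DecidableEq W] (e : Subtype R → A) : Matrix (V ⊕ W) (V ⊕ W) A :=
  fun p q => ∑ r, if p = .inl r.1.1 ∧ q = .inl r.1.2 then e r else 0

omit [Fintype W] in
theorem ext0_inl (e : Subtype R → A) (a b : V) :
    ext0 W e (.inl a) (.inl b) = if h : R (a, b) then e ⟨(a, b), h⟩ else 0 := by
  unfold ext0
  split_ifs with h
  · rw [sum_eq_single ⟨(a, b), h⟩ (fun r _ hr => if_neg fun h1 => hr (Subtype.ext
      (Prod.ext (Sum.inl.inj h1.1).symm (Sum.inl.inj h1.2).symm))) (by simp), if_pos ⟨rfl, rfl⟩]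
  · refine sum_eq_zero fun r _ => if_neg fun h1 => h ?_
    rw [Sum.inl.inj h1.1, Sum.inl.inj h1.2]
    exact r.2

theorem mul_ext0 (X : Matrix (V ⊕ W) (V ⊕ W) A) (e : Subtype R → A) (p q : V ⊕ W) :
    (X * ext0 W e : Matrix _ _ A) p q =
      ∑ r, if q = .inl r.1.2 then X p (.inl r.1.1) * e r else 0 := by
  simp only [Matrix.mul_apply, ext0, mul_sum, mul_ite, mul_zero]
  rw [sum_comm]
  refine sum_congr rfl fun r _ => ?_
  simp only [ite_and, sum_ite_eq', mem_univ, if_true]

theorem ext0_mul (X : Matrix (V ⊕ W) (V ⊕ W) A) (e : Subtype R → A) (p q : V ⊕ W) :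
    (ext0 W e * X : Matrix _ _ A) p q =
      ∑ r, if p = .inl r.1.1 then e r * X (.inl r.1.2) q else 0 := by
  simp only [Matrix.mul_apply, ext0, sum_mul, ite_mul, zero_mul]
  rw [sum_comm]
  refine sum_congr rfl fun r _ => ?_
  simp only [ite_and, sum_ite_irrel, sum_ite_eq', mem_univ, if_true, sum_const_zero]

end Ext

theorem der_eq {σ : Type} [Fintype σ] [DecidableEq σ]
    (δ : Derivation ℂ (MvPolynomial σ ℂ) (MvPolynomial σ ℂ)) (f : MvPolynomial σ ℂ) :
    ∑ c, δ (X c) * pderiv c f = δ f := by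
  induction f using MvPolynomial.induction_on with
  | C a => simp
  | add p q hp hq => simp only [map_add, mul_add, sum_add_distrib, hp, hq]
  | mul_X p i hp =>
    simp only [Derivation.leibniz, smul_eq_mul, mul_add, sum_add_distrib, pderiv_X, Pi.single_apply,
      mul_ite, mul_one, mul_zero, sum_ite_eq, mem_univ, if_true, mul_left_comm _ (X i), ← mul_sum,
      hp]
    ring

theorem ite_aux {A : Type} [AddCommGroup A] [Module ℂ A] {a b a' b' : Prop} [Decidable a]
    [Decidable b] [Decidable a'] [Decidable b'] (ha : a ↔ a') (hb : b ↔ b') (m : A) :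
    -((if a then m else 0) + if b then -m else 0) =
      ((if b' then (1 : ℂ) else 0) - if a' then 1 else 0) • m := by
  simp only [← ha, ← hb]
  split_ifs <;> simp

variable (Q : Quiv) (w v : Fin Q.n → ℕ) (e : Fin Q.n → ℕ → ℤ)

noncomputable local instance : DecidableEq (Option (Co Q w v)) := Classical.decEq _

theorem Yc_eq : Yf Q w v e kc = ext0 _ fun r => gn (.inr (.inl r)) := by
  funext p q
  rcases p with a | a <;> rcases q with b | b
  · rw [ext0_inl]
    rfl
  all_goals exact (sum_eq_zero fun r _ => if_neg (by simp)).symm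

theorem Ye_eq : Yf Q w v e ke = ext0 _ fun r => gn (.inr (.inr r)) := by
  funext p q
  rcases p with a | a <;> rcases q with b | b
  · rw [ext0_inl]
    rfl
  all_goals exact (sum_eq_zero fun r _ => if_neg (by simp)).symm

theorem df_even (c : Option (Co Q w v)) : df Q w v e (.inl c) =
    ∑ r : Subtype (RootP Q v), gn (.inr (.inl r)) * mul (act r.1 (X c)) := by
  rcases c with _ | ⟨ε, p, q⟩
  · refine (sum_eq_zero fun r _ => ?_).symm
    rw [act_T]
    exact (congrArg _ (map_zero mulA)).trans (mul_zero _)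
  · change (Yf Q w v e (kx ε) * Yf Q w v e kc - Yf Q w v e kc * Yf Q w v e (kx ε)) p q = _
    rw [Yc_eq, Matrix.sub_apply, mul_ext0, ext0_mul, ← sum_sub_distrib]
    refine sum_congr rfl fun r _ => ?_
    have h : act r.1 (X (some (ε, p, q))) = H56.adj r.1 (mat ε) p q := act_X r.1 ε p q
    rw [h, H56.adj]
    change _ = _ * mulA _
    rw [map_sub, apply_ite mulA, apply_ite mulA, map_zero, mul_sub, mul_ite, mul_ite, mul_zero]
    congr 2
    exact (gn_mul_gn (.inl _) _).trans (by rw [Sum.isRight_inl, Bool.false_and, sg_false, one_smul]; rfl)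

theorem df_root (t : Subtype (RootP Q v)) : df Q w v e (.inr (.inl t)) =
    -quad (E := Module.End ℂ (Mf Q w v e)) (fun r => gn (.inr (.inl r))) t := by
  change (-(Yf Q w v e kc * Yf Q w v e kc)) (.inl t.1.1) (.inl t.1.2) = _
  rw [Yc_eq, Matrix.neg_apply, ext0_mul, quad]
  refine congrArg _ (sum_congr rfl fun r _ => ?_)
  simp only [ext0, mul_sum, ite_sum_zero, Sum.inl.injEq, mul_ite, mul_zero, ← ite_and, Prod.ext_iff]
  exact sum_congr rfl fun r' _ => if_congr (by tauto) rfl rfl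

theorem df_rel (β : Subtype (RelP Q v e)) : df Q w v e (.inr (.inr β)) = mul (mom Q w v β.1) +
    ∑ r : Subtype (RootP Q v), ∑ β' : Subtype (RelP Q v e),
      H42.co r.1 β.1 β'.1 • (gn (.inr (.inl r)) * gn (.inr (.inr β'))) := by
  change (∑ o, (Yf Q w v e (kx (o, true)) * Yf Q w v e (kx (o, false)) -
    Yf Q w v e (kx (o, false)) * Yf Q w v e (kx (o, true))) - Yf Q w v e kc * Yf Q w v e ke -
    Yf Q w v e ke * Yf Q w v e kc) (.inl β.1.1) (.inl β.1.2) = _
  rw [Matrix.sub_apply, Matrix.sub_apply, sub_sub, sub_eq_add_neg, Yc_eq, ext0_mul, mul_ext0, Ye_eq]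
  congr 1
  · change _ = mulA _
    simp only [mom, Matrix.sum_apply, Matrix.sub_apply, Matrix.mul_apply, map_sum, map_sub, map_mul]
    rfl
  · rw [← sum_add_distrib, ← sum_neg_distrib]
    refine sum_congr rfl fun r _ => ?_
    simp only [ext0, mul_sum, sum_mul, ite_sum_zero, Sum.inl.injEq, mul_ite, mul_zero, ite_mul,
      zero_mul, ← ite_and, ← sum_add_distrib, ← sum_neg_distrib]
    refine sum_congr rfl fun β' _ => ?_
    rw [gn_mul_gn (Sum.inr (Sum.inr β')), Sum.isRight_inr, Sum.isRight_inr, Bool.and_self,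
      sg_true_smul (R := Module.End ℂ (Mf Q w v e)), H42.co]
    exact ite_aux (A := Module.End ℂ (Mf Q w v e)) (by rw [Prod.ext_iff]; tauto)
      (by rw [Prod.ext_iff]; tauto) _

theorem vf_df (y : Mf Q w v e) : vf (df Q w v e) y =
    ∑ r : Subtype (RootP Q v), wedge (.inl r) ((act r.1).toLinearMap.compLeft _ y) +
    (-(∑ r : Subtype (RootP Q v), ∑ r' : Subtype (RootP Q v), ∑ t : Subtype (RootP Q v),
      if r.1.2 = r'.1.1 ∧ t.1 = (r.1.1, r'.1.2) then
        wedge (.inl r) (wedge (.inl r') (contr (.inl t) y)) else 0) +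
    (∑ β : Subtype (RelP Q v e),
      (LinearMap.mulLeft ℂ (mom Q w v β.1)).compLeft _ (contr (.inr β) y) +
    ∑ r : Subtype (RootP Q v), ∑ β : Subtype (RelP Q v e), ∑ β' : Subtype (RelP Q v e),
      H42.co r.1 β.1 β'.1 • wedge (.inl r) (wedge (.inr β') (contr (.inr β) y)))) := by
  rw [vf, LinearMap.sum_apply, Fintype.sum_sum_type, Fintype.sum_sum_type]
  congr 1
  · simp only [df_even, sum_mul, LinearMap.sum_apply, Module.End.mul_apply]
    rw [sum_comm]
    refine sum_congr rfl fun r _ => ?_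
    rw [← map_sum]
    refine congrArg _ (funext fun S => ?_)
    rw [Finset.sum_apply]
    exact der_eq (act r.1) (y S)
  congr 1
  · simp only [df_root, quad, Module.End.mul_apply, LinearMap.neg_apply, LinearMap.sum_apply,
      sum_neg_distrib]
    rw [sum_comm]
    refine congrArg _ (sum_congr rfl fun r _ => ?_)
    rw [sum_comm]
    refine sum_congr rfl fun r' _ => sum_congr rfl fun t _ => ?_
    split_ifs
    · rfl
    · rfl
  · simp only [df_rel, add_mul, sum_mul, LinearMap.add_apply, LinearMap.sum_apply, sum_add_distrib]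
    congr 1
    rw [sum_comm]
    rfl

theorem cur_vf (y : Mf Q w v e) : cur (vf (df Q w v e) y) =
    dCE (RootP Q v) (actKos (RelP Q v e) act) (cur y) +
      kd (RootP Q v) (RelP Q v e) (mom Q w v) (cur y) := by
  rw [vf_df, dCE_apply]
  simp only [map_add, map_neg, map_sum, map_smul, apply_ite cur, map_zero, cur_wedge_inl,
    cur_contr_inl, cur_wedge_inr, cur_contr_inr, cur_compLeft]
  generalize cur y = z
  have h1 : ∀ r : Subtype (RootP Q v), (actKos (RelP Q v e) act r.1).compLeft _ z =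
      ((act r.1).toLinearMap.compLeft _).compLeft _ z +
      ∑ β : Subtype (RelP Q v e), ∑ β' : Subtype (RelP Q v e), H42.co r.1 β.1 β'.1 •
        sgm ((wedge β').compLeft _ (sgm ((contr β).compLeft _ z))) := by
    intro r
    have h2 : ∀ β β' : Subtype (RelP Q v e),
        sgm ((wedge β').compLeft _ (sgm ((contr β).compLeft (Finset (Subtype (RootP Q v))) z))) =
        (wedge β').compLeft _ ((contr β).compLeft _ z) := fun β β' => by
      rw [sgm, dg_compLeft, ← sgm, sgm_sgm]
    simp only [h2]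
    funext S
    change actKos (RelP Q v e) act r.1 (z S) = _
    rw [H42.actKos_apply, H42.Th_apply]
    simp only [Pi.add_apply, Finset.sum_apply]
    rfl
  have h3 : kd (RootP Q v) (RelP Q v e) (mom Q w v) z = ∑ β : Subtype (RelP Q v e),
      ((LinearMap.mulLeft ℂ (mom Q w v β.1)).compLeft _).compLeft _
        (sgm ((contr β).compLeft _ z)) := by
    funext S
    rw [kd_apply, dKos, LinearMap.sum_apply, smul_sum, Finset.sum_apply]
    exact sum_congr rfl fun β _ => (((LinearMap.mulLeft ℂ (mom Q w v β.1)).compLeft _).map_smul _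
      (contr β (z S))).symm
  simp only [h1, h3, map_add, map_sum, map_smul, sum_add_distrib]
  abel

variable {Q w v e}

theorem cur_Bf {F : Pol (Arr Q) (Bas Q v) (Bas Q w)} {y : Mf Q w v e} :
    cur y ∈ Bt (RootP Q v) (RelP Q v e) (chart Q w v e F) ↔ y ∈ Bf Q w v e F := by
  simp only [Bt, Bf, mem_extOf]
  exact cur_mem (fun _ _ => (chart Q w v e F).restrictScalars ℂ) y

theorem cur_Zf {φ γ : G} {p : Bool} {y : Mf Q w v e} :
    cur y ∈ Zt (RootP Q v) (fun a => xV a.1 a.2) (relWt Q v e) (polW Q w v φ) γ p ↔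
      y ∈ Zf Q w v e φ γ p := by
  have h1 : ∀ (S : Finset (Of Q v e)) (m : Option (Co Q w v) →₀ ℕ), ws (wf Q w v e φ) (ex S m) =
      Finsupp.weight (polWt (basWt Q w v) (arrWt Q) φ) m +
        (∑ r ∈ S.toLeft, (xV r.1.2.1 r.1.2.2 - xV r.1.1.1 r.1.1.2) +
          ∑ β ∈ S.toRight, relWt Q v e β) := by
    intro S m
    rw [ws, Fintype.sum_sum_type, Finsupp.weight_eq_sum]
    congr 1
    simp only [ex, Sum.elim_inr, ite_smul, one_smul, zero_smul, sum_ite_mem, univ_inter]
    exact sum_sum_eq_sum_toLeft_add_sum_toRight _ _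
  have h2 : ∀ (S : Finset (Of Q v e)) (m : Option (Co Q w v) →₀ ℕ), od (ex S m) =
      xor (decide (Odd S.toLeft.card)) (decide (Odd S.toRight.card)) := by
    intro S m
    have : ∑ o, ex S m (.inr o) = S.toLeft.card + S.toRight.card := by
      simp only [ex, Sum.elim_inr, sum_ite_mem, univ_inter, card_toLeft_add_card_toRight,
        ← card_eq_sum_ones]
    rw [od, this]
    simp only [Nat.odd_add, ← Nat.not_odd_iff_even]
    by_cases h : Odd S.toLeft.card <;> by_cases h' : Odd S.toRight.card <;> simp [h, h']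
  have h3 := cur_mem (fun (A : Finset (Subtype (RootP Q v))) (T : Finset (Subtype (RelP Q v e))) =>
    polW Q w v φ (γ - ∑ r ∈ A, (xV r.1.2.1 r.1.2.2 - xV r.1.1.1 r.1.1.2) -
      ∑ β ∈ T, relWt Q v e β)) y
  have h4 := cur_mem (fun (A : Finset (Subtype (RootP Q v))) (T : Finset (Subtype (RelP Q v e))) =>
    if decide (Odd T.card) = xor p (decide (Odd A.card)) then ⊤ else ⊥) y
  have h5 : ∀ (c : Prop) [Decidable c] (f : Pol (Arr Q) (Bas Q v) (Bas Q w)),
      f ∈ (if c then ⊤ else ⊥ : Submodule ℂ _) ↔ (¬ c → f = 0) := by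
    intro c _ f
    split_ifs with h <;> simp [h]
  simp only [h5] at h4
  simp only [Zt, Zf, Submodule.mem_inf, mem_extW, mem_par2, mem_par, mem_mono, h1, h2, h3, ne_eq,
    h4, ← forall_and]
  refine forall_congr' fun S => ⟨fun h m hm => ⟨?_, ?_⟩, fun h => ⟨fun m hm => ?_, fun h6 => ?_⟩⟩
  · rw [h.1 hm]
    abel
  · by_contra h6
    refine hm (by rw [h.2 fun h7 => h6 (by rw [h7, Bool.xor_comm, TL.xor_xor]), coeff_zero])
  · rw [← (h m hm).1]
    abel
  · refine MvPolynomial.ext _ _ fun m => of_not_not fun hm => h6 ?_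
    rw [← (h m hm).2, Bool.xor_comm (decide (Odd S.toLeft.card)), TL.xor_xor]

theorem lin_le (F : Pol (Arr Q) (Bas Q v) (Bas Q w)) {f : Pol0 (Arr Q) (Bas Q v) (Bas Q w)}
    (h : f ∈ lin0 Q w v e) : emb f ∈ chart Q w v e F := by
  refine (Ideal.span_le (I := (chart Q w v e F).comap emb)).2 ?_ h
  rintro _ ⟨c, hc, rfl⟩
  exact Ideal.subset_span (Or.inr ⟨c, hc, rename_X _ _⟩)

/-- Module Fx0. -/
theorem fx0 : Fx0Stmt := by
  intro Q w v e F φ hd hF γ
  have hR : IsRoots (RootP Q v) :=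
    ⟨fun a h => lt_irrefl _ h.2, fun a b c h h' => ⟨h.1.trans h'.1, h'.2.trans h.2⟩⟩
  have h1 := rep1 (RootP Q v) (basWt Q w v) (arrWt Q) φ
  have hrep : IsRep (RootP Q v) (fun a => xV a.1 a.2) (extW (relWt Q v e) (polW Q w v φ))
      (actKos (RelP Q v e) act) := H42.rep_kos h1 (fun r hr => by
    obtain ⟨e1, e2⟩ := H42.root_le hd hr
    exact ⟨fun p h => ⟨h.1.trans e1, e2.trans h.2⟩, fun q h => ⟨e1.trans h.1, h.2.trans e2⟩⟩) hb
  have hmul : ∀ α β, ∀ a ∈ polW Q w v φ α, ∀ b ∈ polW Q w v φ β, a * b ∈ polW Q w v φ (α + β) :=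
    fun α β a ha b hb => IsWeightedHomogeneous.mul ha hb
  have hμ : ∀ β : Subtype (RelP Q v e), mom Q w v β ∈ polW Q w v φ (relWt Q v e β) := fun β => by
    rw [H42.emb_mom]
    exact (emb_mem _ _ φ _ _).2 (H42.mom_wt Q w v β)
  have hI : IsSub (RootP Q v) (polW Q w v φ) (fun r => (act r).toLinearMap)
      ((chart Q w v e F).restrictScalars ℂ) := by
    refine ⟨H42.hom_span h1.top hmul ?_, fun r hr m hm => ?_⟩
    · rintro _ (rfl | ⟨c, -, rfl⟩)
      · refine ⟨0, sub_mem ?_ (isWeightedHomogeneous_one ℂ _)⟩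
        have := hmul _ _ _ hF.2.1 _ (isWeightedHomogeneous_X ℂ _ none)
        rwa [polWt, add_neg_cancel] at this
      · exact ⟨_, isWeightedHomogeneous_X ℂ _ _⟩
    · refine Submodule.span_induction (p := fun m _ => act r m ∈ chart Q w v e F) ?_ ?_ ?_ ?_ hm
      · rintro _ (rfl | ⟨c, hc, rfl⟩)
        · have h2 : r.1 ≠ r.2 := fun h => lt_irrefl _ (h ▸ hr.2 : (r.2.2 : ℕ) < r.2.2)
          rw [map_sub, Derivation.leibniz, hF.2.2.2.1 r hr.1 h2, act_T, Derivation.map_one_eq_zero,
            smul_zero, smul_zero, add_zero, sub_zero]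
          exact zero_mem _
        · have h2 := lin_le F (H42.lin_stab Q w v e hd r hr _ (Ideal.subset_span ⟨c, hc, rfl⟩))
          rwa [← act_emb, emb, rename_X] at h2
      · rw [map_zero]
        exact zero_mem _
      · intro a b _ _ ha hb
        rw [map_add]
        exact add_mem ha hb
      · intro a b hb hb'
        rw [smul_eq_mul, Derivation.leibniz, smul_eq_mul, smul_eq_mul]
        exact add_mem (Ideal.mul_mem_left _ _ hb') (Ideal.mul_mem_right _ _ hb)
  have hδ : ∀ r, RootP Q v r → ∀ β : Subtype (RelP Q v e), act r (mom Q w v β) -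
      ∑ β' : Subtype (RelP Q v e), H42.co r β β' • mom Q w v β' ∈ chart Q w v e F := by
    intro r hr β
    simp only [H42.emb_mom, act_emb, ← map_smul, ← map_sum, ← map_sub]
    refine lin_le F ?_
    rw [H42.act_mom, ← Fintype.sum_subtype_add_sum_subtype (RelP Q v e), add_sub_cancel_left]
    refine sum_mem fun β' _ => ?_
    by_cases h0 : H42.co r β β' = 0
    · rw [h0, zero_smul]
      exact zero_mem _
    · refine Submodule.smul_of_tower_mem _ _ (H42.mom_mem Q w v e fun h => β'.2 ⟨?_, h⟩)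
      rcases H42.co_ne h0 with ⟨e1, e2⟩ | ⟨e1, e2⟩
      · rw [e2]
        exact β.2.1.trans ((congrArg Sigma.fst e1).trans hr.1.symm)
      · rw [e2]
        exact hr.1.symm.trans ((congrArg Sigma.fst e1).symm.trans β.2.1)
  have hc := (dbl hR hrep h1.top hmul hμ hI hδ γ).cx
  have hc' : IsCx (vf (df Q w v e)) (Zf Q w v e φ γ) (Bf Q w v e F) := by
    refine ⟨fun p y hy => cur_Zf.1 ?_, fun p y hy hb => cur_Bf.1 ?_, fun p y hy => cur_Bf.1 ?_⟩
    · rw [cur_vf]
      exact hc.mapZ p _ (cur_Zf.2 hy)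
    · rw [cur_vf]
      exact hc.mapB p _ (cur_Zf.2 hy) (cur_Bf.2 hb)
    · rw [cur_vf, cur_vf]
      exact hc.sq p _ (cur_Zf.2 hy)
  refine ⟨hc', fun hf => ?_⟩
  refine (((ChMap.mk (ψ := cur) (s := false) hc' hc (fun p y hy => ⟨cur y, ?_, ?_⟩)
    (fun p y _ hb => cur_Bf.2 hb) fun p => ⟨1, one_ne_zero, fun y hy z hz h => ?_⟩).iso
    (fun p z hz => ?_) fun p y _ hb => cur_Bf.1 hb).1 _).2
    (total hR hrep h1.top h1.indep hmul hμ hI hδ γ hf)
  · rw [Bool.xor_false]
    exact cur_Zf.2 hy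
  · rw [sub_self]
    exact zero_mem _
  · rw [Bool.xor_false] at hz
    have h2 := hc.mapB p _ (sub_mem (cur_Zf.2 hy) hz) h
    rwa [map_sub, LinearMap.add_apply, ← cur_vf, ← one_smul ℂ ((_ + _ : Module.End ℂ _) z)] at h2
  · obtain ⟨y, rfl⟩ := cur_surj z
    rw [Bool.xor_false] at hz
    exact ⟨y, cur_Zf.1 hz, by rw [sub_self]; exact zero_mem _⟩

end Pool.Agent.MP_8be872_ag.H83
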